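import Pool.Agent.H970.DD.Neg
import Pool.Agent.H970.DD.Exi

/-!
MP_4215b8_pr, Q1: NO, for every dimension `n ≥ 1`.

`Om n = C([0,1], ℝ^n)` with a centred Gaussian measure `μ` whose covariance is
`E ω_i(s) ω_j(t) = δ_ij min(s,t)` (`IsW μ`: the Wiener measure; it exists by the first part),
`HH n = L²([0,1], ℝ^n)` is the Cameron-Martin space (`h ↦ ḣ`).

The counterexample: let `A` be the swap of the two halves of the path,
`(A h)'(t) = h'(t + 1/2)` for `t < 1/2` and `(A h)'(t) = - h'(t - 1/2)` for `t > 1/2`.  Then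
`A² = -1`, the rotations `T_θ = cos θ + A sin θ` preserve the Wiener measure, and
`δ f = (d/dθ) f ∘ T_θ` at `θ = 0` (that is, up to sign, `div (A grad f)` for the nonlocal operator
`A`) is a continuous derivation of `D^∞` (of zero divergence).  It is not of the form
`⟨grad f, X⟩ + div (B grad f)` with `B` a process of matrices: `B` is local in time, and
`E (⟨h, X⟩ W(A h)) = 1` for all `h` of norm `1` supported in `[0, 1/2]` is impossible for
`X ∈ L²(Ω; H)` by Bessel's inequality.
-/

set_option autoImplicit false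

open MeasureTheory ProbabilityTheory Set Filter
open scoped ENNReal NNReal Topology

namespace Pool.Agent.Results.MP_4215b8_pr.NonlocalDerivation

open Pool.Agent.R876.WM Pool.Agent.H970.DD

theorem result (n : ℕ) (hn : 0 < n) :
    (∃ μ : Measure (Om n), IsW μ) ∧
    ∀ μ : Measure (Om n), IsW μ →
      ∃ δ : (Om n → ℝ) → (Om n → ℝ), IsDer μ δ ∧
        (∀ f : Om n → ℝ, DI μ f → ∫ ω, δ f ω ∂μ = 0) ∧
        ∀ Xf : Om n → HH n, SqInt μ Xf → ∀ A : ℝ → Om n → Matrix (Fin n) (Fin n) ℝ,
          ¬ IsRep μ δ Xf A := by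
  refine ⟨exists_wiener n, fun μ hμ => ?_⟩
  have := hμ.gauss
  have hC : Ctx μ (sw n) := ctx_of μ hμ.mean (isRot_sw hμ)
  exact ⟨delta μ (sw n), delta_isDer hμ hC, fun f hf => delta_mean hC hf,
    fun Xf hX A => not_rep hn hμ hX A⟩

end Pool.Agent.Results.MP_4215b8_pr.NonlocalDerivation
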